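import Pool.Agent.TH605.AP.BF

set_option autoImplicit false

open Set Topology Filter

namespace Pool.Agent.TH605.AP.BF2

open Pool.Agent.TH605.AP

theorem E_coe (V : HV) (z : ℂ) : E V (z : OnePoint ℂ) =
    V.k * (z.re ^ 2 + z.im ^ 2) - 2 * (V.p * z.re + V.q * z.im) + V.c := rfl

theorem E_inf (V : HV) : E V (OnePoint.infty : OnePoint ℂ) = V.k := rfl

theorem D0 (z : ℂ) : E (vD 0) (z : OnePoint ℂ) = 2 - 2 * z.re := by
  rw [E_coe]; simp [vD]; ring
theorem D1 (z : ℂ) : E (vD 1) (z : OnePoint ℂ) = 2 * z.re := by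
  rw [E_coe]; simp [vD]
theorem D2 (z : ℂ) : E (vD 2) (z : OnePoint ℂ) =
    2 * (z.re ^ 2 + z.im ^ 2) - 2 * z.re + 4 * z.im + 2 := by
  rw [E_coe]; simp [vD]; ring
theorem D3 (z : ℂ) : E (vD 3) (z : OnePoint ℂ) = 2 * (z.re ^ 2 + z.im ^ 2) - 2 * z.re := by
  rw [E_coe]; simp [vD]
theorem C0 (z : ℂ) : E (vC 0) (z : OnePoint ℂ) = 2 * (z.re ^ 2 + z.im ^ 2) + 2 * z.im := by
  rw [E_coe]; simp [vC]
theorem C1 (z : ℂ) : E (vC 1) (z : OnePoint ℂ) =
    2 * (z.re ^ 2 + z.im ^ 2) - 4 * z.re + 2 * z.im + 2 := by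
  rw [E_coe]; simp [vC]; ring
theorem C2 (z : ℂ) : E (vC 2) (z : OnePoint ℂ) = - 2 * z.im := by
  rw [E_coe]; simp [vC]
theorem C3 (z : ℂ) : E (vC 3) (z : OnePoint ℂ) = 2 * z.im + 2 := by
  rw [E_coe]; simp [vC]

theorem D0i : E (vD 0) (OnePoint.infty : OnePoint ℂ) = 0 := by rw [E_inf]; simp [vD]
theorem D1i : E (vD 1) (OnePoint.infty : OnePoint ℂ) = 0 := by rw [E_inf]; simp [vD]
theorem D2i : E (vD 2) (OnePoint.infty : OnePoint ℂ) = 2 := by rw [E_inf]; simp [vD]
theorem D3i : E (vD 3) (OnePoint.infty : OnePoint ℂ) = 2 := by rw [E_inf]; simp [vD]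
theorem C0i : E (vC 0) (OnePoint.infty : OnePoint ℂ) = 2 := by rw [E_inf]; simp [vC]
theorem C1i : E (vC 1) (OnePoint.infty : OnePoint ℂ) = 2 := by rw [E_inf]; simp [vC]
theorem C2i : E (vC 2) (OnePoint.infty : OnePoint ℂ) = 0 := by rw [E_inf]; simp [vC]
theorem C3i : E (vC 3) (OnePoint.infty : OnePoint ℂ) = 0 := by rw [E_inf]; simp [vC]

theorem t01 : tp 0 1 = OnePoint.infty := rfl
theorem t10 : tp 1 0 = OnePoint.infty := rfl
theorem t02 : tp 0 2 = ((1 - Complex.I : ℂ) : OnePoint ℂ) := rfl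
theorem t20 : tp 2 0 = ((1 - Complex.I : ℂ) : OnePoint ℂ) := rfl
theorem t03 : tp 0 3 = ((1 : ℂ) : OnePoint ℂ) := rfl
theorem t30 : tp 3 0 = ((1 : ℂ) : OnePoint ℂ) := rfl
theorem t12 : tp 1 2 = ((-Complex.I : ℂ) : OnePoint ℂ) := rfl
theorem t21 : tp 2 1 = ((-Complex.I : ℂ) : OnePoint ℂ) := rfl
theorem t13 : tp 1 3 = ((0 : ℂ) : OnePoint ℂ) := rfl
theorem t31 : tp 3 1 = ((0 : ℂ) : OnePoint ℂ) := rfl
theorem t23 : tp 2 3 = (((1 - Complex.I) / 2 : ℂ) : OnePoint ℂ) := rfl
theorem t32 : tp 3 2 = (((1 - Complex.I) / 2 : ℂ) : OnePoint ℂ) := rfl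

theorem tp_symm : ∀ i j, tp i j = tp j i := by
  intro i j
  fin_cases i <;> fin_cases j <;> rfl

/-- equality with a point of the plane in coordinates -/
theorem eq_iff (z w : ℂ) (a b : ℝ) (ha : w.re = a) (hb : w.im = b) :
    ((z : OnePoint ℂ) = (w : OnePoint ℂ)) ↔ z.re = a ∧ z.im = b := by
  rw [OnePoint.coe_eq_coe, Complex.ext_iff, ha, hb]

theorem c02 (z : ℂ) : ((z : OnePoint ℂ) = tp 0 2) ↔ z.re = 1 ∧ z.im = -1 := by
  rw [t02]; exact eq_iff _ _ _ _ (by simp) (by simp)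
theorem c03 (z : ℂ) : ((z : OnePoint ℂ) = tp 0 3) ↔ z.re = 1 ∧ z.im = 0 := by
  rw [t03]; exact eq_iff _ _ _ _ (by simp) (by simp)
theorem c12 (z : ℂ) : ((z : OnePoint ℂ) = tp 1 2) ↔ z.re = 0 ∧ z.im = -1 := by
  rw [t12]; exact eq_iff _ _ _ _ (by simp) (by simp)
theorem c13 (z : ℂ) : ((z : OnePoint ℂ) = tp 1 3) ↔ z.re = 0 ∧ z.im = 0 := by
  rw [t13]; exact eq_iff _ _ _ _ (by simp) (by simp)
theorem c23 (z : ℂ) : ((z : OnePoint ℂ) = tp 2 3) ↔ z.re = 1 / 2 ∧ z.im = - (1 / 2) := by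
  rw [t23]
  have h : ((1 - Complex.I) / 2 : ℂ) = ⟨1/2, -(1/2)⟩ := by
    apply Complex.ext
    · simp
    · simp; norm_num
  rw [h]
  exact eq_iff _ _ _ _ rfl rfl
theorem c01 (z : ℂ) : ¬ ((z : OnePoint ℂ) = tp 0 1) := by
  rw [t01]; exact OnePoint.coe_ne_infty z

theorem i02 : ¬ ((OnePoint.infty : OnePoint ℂ) = tp 0 2) := by
  rw [t02]; exact OnePoint.infty_ne_coe _
theorem i03 : ¬ ((OnePoint.infty : OnePoint ℂ) = tp 0 3) := by
  rw [t03]; exact OnePoint.infty_ne_coe _
theorem i12 : ¬ ((OnePoint.infty : OnePoint ℂ) = tp 1 2) := by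
  rw [t12]; exact OnePoint.infty_ne_coe _
theorem i13 : ¬ ((OnePoint.infty : OnePoint ℂ) = tp 1 3) := by
  rw [t13]; exact OnePoint.infty_ne_coe _
theorem i23 : ¬ ((OnePoint.infty : OnePoint ℂ) = tp 2 3) := by
  rw [t23]; exact OnePoint.infty_ne_coe _
theorem i01 : ((OnePoint.infty : OnePoint ℂ) = tp 0 1) := rfl

/-! pairwise intersections -/

theorem in01 : ∀ z, (z ∈ Disc 0 ∧ z ∈ Disc 1) ↔ z = tp 0 1 := by
  intro z
  simp only [Disc, mem_setOf_eq]
  induction z using OnePoint.rec with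
  | infty => rw [D0i, D1i]; simp [i01.symm]
  | coe z =>
    rw [D0, D1]
    constructor
    · rintro ⟨h1, h2⟩; linarith
    · intro h; exact absurd h (c01 z)

theorem in02 : ∀ z, (z ∈ Disc 0 ∧ z ∈ Disc 2) ↔ z = tp 0 2 := by
  intro z
  simp only [Disc, mem_setOf_eq]
  induction z using OnePoint.rec with
  | infty => rw [D0i, D2i]; simp [i02]
  | coe z =>
    rw [D0, D2, c02]
    constructor
    · rintro ⟨h1, h2⟩
      have h3 : (z.im + 1) ^ 2 ≤ 0 := by nlinarith
      have h4 : z.im + 1 = 0 := by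
        have := sq_nonneg (z.im + 1)
        exact pow_eq_zero_iff (two_ne_zero) |>.1 (le_antisymm h3 this)
      have h5 : (z.re - 1) ≤ 0 := by nlinarith [sq_nonneg (z.re - 1)]
      constructor <;> linarith
    · rintro ⟨h1, h2⟩; rw [h1, h2]; norm_num

theorem in03 : ∀ z, (z ∈ Disc 0 ∧ z ∈ Disc 3) ↔ z = tp 0 3 := by
  intro z
  simp only [Disc, mem_setOf_eq]
  induction z using OnePoint.rec with
  | infty => rw [D0i, D3i]; simp [i03]
  | coe z =>
    rw [D0, D3, c03]
    constructor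
    · rintro ⟨h1, h2⟩
      have h3 : (z.im) ^ 2 ≤ 0 := by nlinarith
      have h4 : z.im = 0 := by
        have := sq_nonneg (z.im)
        exact pow_eq_zero_iff (two_ne_zero) |>.1 (le_antisymm h3 this)
      have h5 : (z.re - 1) ≤ 0 := by nlinarith [sq_nonneg (z.re - 1)]
      constructor <;> linarith
    · rintro ⟨h1, h2⟩; rw [h1, h2]; norm_num

theorem in12 : ∀ z, (z ∈ Disc 1 ∧ z ∈ Disc 2) ↔ z = tp 1 2 := by
  intro z
  simp only [Disc, mem_setOf_eq]
  induction z using OnePoint.rec with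
  | infty => rw [D1i, D2i]; simp [i12]
  | coe z =>
    rw [D1, D2, c12]
    constructor
    · rintro ⟨h1, h2⟩
      have h3 : (z.im + 1) ^ 2 ≤ 0 := by nlinarith [sq_nonneg z.re]
      have h4 : z.im + 1 = 0 := by
        have := sq_nonneg (z.im + 1)
        exact pow_eq_zero_iff (two_ne_zero) |>.1 (le_antisymm h3 this)
      have h5 : 0 ≤ z.re := by nlinarith [sq_nonneg (z.re)]
      constructor <;> linarith
    · rintro ⟨h1, h2⟩; rw [h1, h2]; norm_num

theorem in13 : ∀ z, (z ∈ Disc 1 ∧ z ∈ Disc 3) ↔ z = tp 1 3 := by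
  intro z
  simp only [Disc, mem_setOf_eq]
  induction z using OnePoint.rec with
  | infty => rw [D1i, D3i]; simp [i13]
  | coe z =>
    rw [D1, D3, c13]
    constructor
    · rintro ⟨h1, h2⟩
      have h3 : (z.im) ^ 2 ≤ 0 := by nlinarith [sq_nonneg z.re]
      have h4 : z.im = 0 := by
        have := sq_nonneg (z.im)
        exact pow_eq_zero_iff (two_ne_zero) |>.1 (le_antisymm h3 this)
      have h5 : 0 ≤ z.re := by nlinarith [sq_nonneg (z.re)]
      constructor <;> linarith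
    · rintro ⟨h1, h2⟩; rw [h1, h2]; norm_num

theorem in23 : ∀ z, (z ∈ Disc 2 ∧ z ∈ Disc 3) ↔ z = tp 2 3 := by
  intro z
  simp only [Disc, mem_setOf_eq]
  induction z using OnePoint.rec with
  | infty => rw [D2i, D3i]; simp [i23]
  | coe z =>
    rw [D2, D3, c23]
    constructor
    · rintro ⟨h1, h2⟩
      have h3 : (z.im + 1 / 2) ^ 2 + (z.re - 1/2)^2 ≤ 0 := by nlinarith
      have h4 : (z.im + 1/2) ^ 2 ≤ 0 := by nlinarith [sq_nonneg (z.re - 1/2)]
      have h4' : (z.re - 1/2) ^ 2 ≤ 0 := by nlinarith [sq_nonneg (z.im + 1/2)]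
      have h5 : z.im + 1 / 2 = 0 :=
        pow_eq_zero_iff (two_ne_zero) |>.1 (le_antisymm h4 (sq_nonneg _))
      have h6 : z.re - 1 / 2 = 0 :=
        pow_eq_zero_iff (two_ne_zero) |>.1 (le_antisymm h4' (sq_nonneg _))
      constructor <;> linarith
    · rintro ⟨h1, h2⟩; rw [h1, h2]; norm_num

theorem inter : ∀ i j, i ≠ j → Disc i ∩ Disc j = {tp i j} := by
  have key : ∀ i j, i < j → ∀ z, (z ∈ Disc i ∧ z ∈ Disc j) ↔ z = tp i j := by
    intro i j hij
    fin_cases i <;> fin_cases j <;>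
      first
        | exact in01
        | exact in02
        | exact in03
        | exact in12
        | exact in13
        | exact in23
        | exact absurd hij (by decide)
  intro i j hij
  rcases lt_or_gt_of_ne hij with h | h
  · ext z
    rw [mem_inter_iff, mem_singleton_iff]
    exact key i j h z
  · ext z
    rw [mem_inter_iff, mem_singleton_iff, and_comm, tp_symm]
    exact key j i h z

theorem sub : ∀ i, DiscI i ⊆ Disc i := by
  intro i z hz
  have h : E (vD i) z < 0 := hz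
  have h' : E (vD i) z ≤ 0 := h.le
  exact h'

theorem tp_mem : ∀ i j, i ≠ j → E (vD i) (tp i j) = 0 := by
  intro i j hij
  fin_cases i <;> fin_cases j <;>
      first
        | exact absurd rfl hij
        | (show E (vD 0) (tp 0 1) = 0; rw [t01, D0i])
        | (show E (vD 0) (tp 0 2) = 0; rw [t02, D0]; simp)
        | (show E (vD 0) (tp 0 3) = 0; rw [t03, D0]; simp)
        | (show E (vD 1) (tp 1 0) = 0; rw [t10, D1i])
        | (show E (vD 1) (tp 1 2) = 0; rw [t12, D1]; simp)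
        | (show E (vD 1) (tp 1 3) = 0; rw [t13, D1]; simp)
        | (show E (vD 2) (tp 2 0) = 0; rw [t20, D2]; simp; norm_num)
        | (show E (vD 2) (tp 2 1) = 0; rw [t21, D2]; simp; norm_num)
        | (show E (vD 2) (tp 2 3) = 0; rw [t23, D2]; simp; norm_num)
        | (show E (vD 3) (tp 3 0) = 0; rw [t30, D3]; simp)
        | (show E (vD 3) (tp 3 1) = 0; rw [t31, D3]; simp)
        | (show E (vD 3) (tp 3 2) = 0; rw [t32, D3]; simp; norm_num)

theorem interI : ∀ i j, i ≠ j → Disjoint (DiscI i) (Disc j) := by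
  intro i j hij
  rw [Set.disjoint_left]
  intro z h1 h2
  have h3 : z ∈ Disc i ∩ Disc j := ⟨sub i h1, h2⟩
  rw [inter i j hij, mem_singleton_iff] at h3
  rw [h3] at h1
  have := tp_mem i j hij
  simp only [DiscI, mem_setOf_eq] at h1
  linarith


theorem tp_not : ∀ i j k, i ≠ j → k ≠ i → k ≠ j → tp i j ∉ Disc k := by
  intro i j k hij hki hkj h
  have h1 : tp i j ∈ Disc i ∩ Disc k := ⟨(tp_mem i j hij).le, h⟩
  rw [inter i k hki.symm, mem_singleton_iff] at h1
  have h2 : tp i j ∈ Disc j ∩ Disc k := by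
    refine ⟨?_, h⟩
    rw [tp_symm]
    exact (tp_mem j i hij.symm).le
  rw [inter j k hkj.symm, mem_singleton_iff] at h2
  -- `tp i k = tp j k = tp i j`
  have h3 : tp i k = tp j k := h1.symm.trans h2
  clear h1 h2 h
  fin_cases i <;> fin_cases j <;> fin_cases k <;>
      first
        | exact absurd rfl hij
        | exact absurd rfl hki
        | exact absurd rfl hkj
        | exact i02 h3
        | exact i03 h3
        | exact i12 h3
        | exact i13 h3
        | exact i23 h3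
        | exact i02 h3.symm
        | exact i03 h3.symm
        | exact i12 h3.symm
        | exact i13 h3.symm
        | exact i23 h3.symm
        | (have h4 := (c02 _).1 h3; simp at h4; done)
        | (have h4 := (c03 _).1 h3; simp at h4; done)
        | (have h4 := (c12 _).1 h3; simp at h4; done)
        | (have h4 := (c13 _).1 h3; simp at h4; done)
        | (have h4 := (c23 _).1 h3; simp at h4; norm_num at h4; done)
        | (have h4 := (c02 _).1 h3.symm; simp at h4; done)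
        | (have h4 := (c03 _).1 h3.symm; simp at h4; done)
        | (have h4 := (c12 _).1 h3.symm; simp at h4; done)
        | (have h4 := (c13 _).1 h3.symm; simp at h4; done)
        | (have h4 := (c23 _).1 h3.symm; simp at h4; norm_num at h4; done)

theorem Cir_Disc : ∀ i, Disjoint (Cir i) (Disc i) := by
  intro i
  rw [Set.disjoint_left]
  intro z h1 h2
  have h1' : E (vC i) z = 0 := h1
  have h2' : E (vD i) z ≤ 0 := h2
  clear h1 h2
  induction z using OnePoint.rec with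
  | infty =>
    fin_cases i
    · replace h1' : E (vC 0) OnePoint.infty = 0 := h1'
      rw [C0i] at h1'; norm_num at h1'
    · replace h1' : E (vC 1) OnePoint.infty = 0 := h1'
      rw [C1i] at h1'; norm_num at h1'
    · replace h2' : E (vD 2) OnePoint.infty ≤ 0 := h2'
      rw [D2i] at h2'; norm_num at h2'
    · replace h2' : E (vD 3) OnePoint.infty ≤ 0 := h2'
      rw [D3i] at h2'; norm_num at h2'
  | coe z =>
    fin_cases i
    · replace h1' : E (vC 0) (z : OnePoint ℂ) = 0 := h1'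
      replace h2' : E (vD 0) (z : OnePoint ℂ) ≤ 0 := h2'
      rw [C0] at h1'; rw [D0] at h2'
      nlinarith [sq_nonneg (z.im + 1/2), sq_nonneg (z.re - 1)]
    · replace h1' : E (vC 1) (z : OnePoint ℂ) = 0 := h1'
      replace h2' : E (vD 1) (z : OnePoint ℂ) ≤ 0 := h2'
      rw [C1] at h1'; rw [D1] at h2'
      nlinarith [sq_nonneg (z.im + 1/2), sq_nonneg (z.re)]
    · replace h1' : E (vC 2) (z : OnePoint ℂ) = 0 := h1'
      replace h2' : E (vD 2) (z : OnePoint ℂ) ≤ 0 := h2'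
      rw [C2] at h1'; rw [D2] at h2'
      have : z.im = 0 := by linarith
      rw [this] at h2'
      nlinarith [sq_nonneg (z.re - 1/2)]
    · replace h1' : E (vC 3) (z : OnePoint ℂ) = 0 := h1'
      replace h2' : E (vD 3) (z : OnePoint ℂ) ≤ 0 := h2'
      rw [C3] at h1'; rw [D3] at h2'
      have : z.im = -1 := by linarith
      rw [this] at h2'
      nlinarith [sq_nonneg (z.re - 1/2)]

theorem tp_Cir : ∀ i j k, i ≠ j → k ≠ i → k ≠ j → tp i j ∈ Cir k := by
  intro i j k hij hki hkj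
  show E (vC k) (tp i j) = 0
  fin_cases i <;> fin_cases j <;> fin_cases k <;>
      first
        | exact absurd rfl hij
        | exact absurd rfl hki
        | exact absurd rfl hkj
        | exact C2i
        | exact C3i
        | (refine (C0 _).trans ?_; simp; done)
        | (refine (C1 _).trans ?_; simp; done)
        | (refine (C2 _).trans ?_; simp; done)
        | (refine (C3 _).trans ?_; simp; done)
        | (refine (C0 _).trans ?_; simp; norm_num; done)
        | (refine (C1 _).trans ?_; simp; norm_num; done)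
        | (refine (C2 _).trans ?_; simp; norm_num; done)
        | (refine (C3 _).trans ?_; simp; norm_num; done)

/-! the circles -/

theorem ci01 : ∀ z, (E (vC 0) z = 0 ∧ E (vC 1) z = 0) ↔ z = tp 2 3 := by
  intro z
  induction z using OnePoint.rec with
  | infty => rw [C0i, C1i]; simp [i23]
  | coe z =>
    rw [C0, C1, c23]
    constructor
    · rintro ⟨h1, h2⟩
      have h3 : z.re = 1 / 2 := by linarith
      rw [h3] at h1
      have h4 : (z.im + 1/2) ^ 2 = 0 := by nlinarith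
      have h5 : z.im + 1 / 2 = 0 := pow_eq_zero_iff (two_ne_zero) |>.1 h4
      exact ⟨h3, by linarith⟩
    · rintro ⟨h1, h2⟩; rw [h1, h2]; norm_num

theorem ci02 : ∀ z, (E (vC 0) z = 0 ∧ E (vC 2) z = 0) ↔ z = tp 1 3 := by
  intro z
  induction z using OnePoint.rec with
  | infty => rw [C0i, C2i]; simp [i13]
  | coe z =>
    rw [C0, C2, c13]
    constructor
    · rintro ⟨h1, h2⟩
      have h3 : z.im = 0 := by linarith
      rw [h3] at h1
      have h4 : (z.re) ^ 2 = 0 := by nlinarith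
      exact ⟨pow_eq_zero_iff (two_ne_zero) |>.1 h4, h3⟩
    · rintro ⟨h1, h2⟩; rw [h1, h2]; norm_num

theorem ci03 : ∀ z, (E (vC 0) z = 0 ∧ E (vC 3) z = 0) ↔ z = tp 1 2 := by
  intro z
  induction z using OnePoint.rec with
  | infty => rw [C0i, C3i]; simp [i12]
  | coe z =>
    rw [C0, C3, c12]
    constructor
    · rintro ⟨h1, h2⟩
      have h3 : z.im = -1 := by linarith
      rw [h3] at h1
      have h4 : (z.re) ^ 2 = 0 := by nlinarith
      exact ⟨pow_eq_zero_iff (two_ne_zero) |>.1 h4, h3⟩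
    · rintro ⟨h1, h2⟩; rw [h1, h2]; norm_num

theorem ci12 : ∀ z, (E (vC 1) z = 0 ∧ E (vC 2) z = 0) ↔ z = tp 0 3 := by
  intro z
  induction z using OnePoint.rec with
  | infty => rw [C1i, C2i]; simp [i03]
  | coe z =>
    rw [C1, C2, c03]
    constructor
    · rintro ⟨h1, h2⟩
      have h3 : z.im = 0 := by linarith
      rw [h3] at h1
      have h4 : (z.re - 1) ^ 2 = 0 := by nlinarith
      have h5 := pow_eq_zero_iff (two_ne_zero) |>.1 h4
      exact ⟨by linarith, h3⟩
    · rintro ⟨h1, h2⟩; rw [h1, h2]; norm_num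

theorem ci13 : ∀ z, (E (vC 1) z = 0 ∧ E (vC 3) z = 0) ↔ z = tp 0 2 := by
  intro z
  induction z using OnePoint.rec with
  | infty => rw [C1i, C3i]; simp [i02]
  | coe z =>
    rw [C1, C3, c02]
    constructor
    · rintro ⟨h1, h2⟩
      have h3 : z.im = -1 := by linarith
      rw [h3] at h1
      have h4 : (z.re - 1) ^ 2 = 0 := by nlinarith
      have h5 := pow_eq_zero_iff (two_ne_zero) |>.1 h4
      exact ⟨by linarith, h3⟩
    · rintro ⟨h1, h2⟩; rw [h1, h2]; norm_num

theorem ci23 : ∀ z, (E (vC 2) z = 0 ∧ E (vC 3) z = 0) ↔ z = tp 0 1 := by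
  intro z
  induction z using OnePoint.rec with
  | infty => rw [C2i, C3i]; simp [i01.symm]
  | coe z =>
    rw [C2, C3]
    constructor
    · rintro ⟨h1, h2⟩; linarith
    · intro h; exact absurd h (c01 z)

theorem Cir_inter : ∀ i j k l, i ≠ j → i ≠ k → i ≠ l → j ≠ k → j ≠ l → k ≠ l →
    Cir i ∩ Cir j = {tp k l} := by
  have key : ∀ i j k l, i < j → k < l → i ≠ k → i ≠ l → j ≠ k → j ≠ l →
      ∀ z, (E (vC i) z = 0 ∧ E (vC j) z = 0) ↔ z = tp k l := by
    intro i j k l h1 h2 h3 h4 h5 h6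
    fin_cases i <;> fin_cases j <;> fin_cases k <;> fin_cases l <;>
      first
        | exact absurd h1 (by decide)
        | exact absurd h2 (by decide)
        | exact absurd rfl h3
        | exact absurd rfl h4
        | exact absurd rfl h5
        | exact absurd rfl h6
        | exact ci01
        | exact ci02
        | exact ci03
        | exact ci12
        | exact ci13
        | exact ci23
  have key2 : ∀ i j k l, k < l → i ≠ j → i ≠ k → i ≠ l → j ≠ k → j ≠ l →
      ∀ z, (E (vC i) z = 0 ∧ E (vC j) z = 0) ↔ z = tp k l := by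
    intro i j k l h1 h2 h3 h4 h5 h6 z
    rcases lt_or_gt_of_ne h2 with h | h
    · exact key i j k l h h1 h3 h4 h5 h6 z
    · rw [and_comm]
      exact key j i k l h h1 h5 h6 h3 h4 z
  intro i j k l h1 h2 h3 h4 h5 h6
  ext z
  rw [mem_inter_iff, mem_singleton_iff]
  show (E (vC i) z = 0 ∧ E (vC j) z = 0) ↔ z = tp k l
  rcases lt_or_gt_of_ne h6 with h | h
  · exact key2 i j k l h h1 h2 h3 h4 h5 z
  · rw [tp_symm k l]
    exact key2 i j l k h h1 h3 h2 h5 h4 z

theorem Cir_triple : ∀ i j k, i ≠ j → i ≠ k → j ≠ k → Cir i ∩ Cir j ∩ Cir k = ∅ := by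
  intro i j k h1 h2 h3
  rw [Set.eq_empty_iff_forall_notMem]
  rintro z ⟨⟨hi, hj⟩, hk⟩
  have hex : ∀ i j k : Fin 4, ∃ l : Fin 4, i ≠ l ∧ j ≠ l ∧ k ≠ l := by decide
  obtain ⟨l, hl1, hl2, hl3⟩ := hex i j k
  have ha : z ∈ Cir i ∩ Cir j := ⟨hi, hj⟩
  rw [Cir_inter i j k l h1 h2 hl1 h3 hl2 hl3, mem_singleton_iff] at ha
  have hb : z ∈ Disc k := by
    rw [ha]; exact (tp_mem k l hl3).le
  exact Set.disjoint_left.1 (Cir_Disc k) hk hb

theorem Fd_Cir : ∀ k z, z ∈ Fd → z ∈ Cir k → ∃ i j, i ≠ j ∧ z = tp i j := by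
  intro k z hF hC
  have h0 : 0 ≤ E (vD 0) z := hF 0
  have h1 : 0 ≤ E (vD 1) z := hF 1
  have h2 : 0 ≤ E (vD 2) z := hF 2
  have h3 : 0 ≤ E (vD 3) z := hF 3
  have hC' : E (vC k) z = 0 := hC
  clear hF hC
  induction z using OnePoint.rec with
  | infty => exact ⟨0, 1, by decide, i01⟩
  | coe z =>
    rw [D0] at h0; rw [D1] at h1; rw [D2] at h2; rw [D3] at h3
    fin_cases k
    · replace hC' : E (vC 0) (z : OnePoint ℂ) = 0 := hC'
      rw [C0] at hC'
      -- points (0,0), (0,-1), (1/2,-1/2)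
      have hb1 : z.im ≤ -z.re := by nlinarith
      have hb2 : z.re - 1 ≤ z.im := by nlinarith
      by_cases hx : z.re = 0
      · rw [hx] at hC'
        have : z.im * (z.im + 1) = 0 := by nlinarith
        rcases mul_eq_zero.1 this with h | h
        · exact ⟨1, 3, by decide, (c13 z).2 ⟨hx, h⟩⟩
        · exact ⟨1, 2, by decide, (c12 z).2 ⟨hx, by linarith⟩⟩
      · have hx' : 0 < z.re := lt_of_le_of_ne (by linarith) (Ne.symm hx)
        have e1 : (z.re + z.im) * (z.im + 1 - z.re) ≤ 0 := by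
          nlinarith
        have e2 : (z.re + z.im) * (z.im + 1 - z.re) = z.im + z.im ^ 2 + z.re - z.re ^ 2 := by ring
        have e3 : z.re ≤ 2 * z.re ^ 2 := by nlinarith
        have e4 : 1 / 2 ≤ z.re := by nlinarith
        have e5 : z.re = 1 / 2 := by linarith
        refine ⟨2, 3, by decide, (c23 z).2 ⟨e5, ?_⟩⟩
        linarith
    · replace hC' : E (vC 1) (z : OnePoint ℂ) = 0 := hC'
      rw [C1] at hC'
      have hb1 : z.im ≤ z.re - 1 := by nlinarith
      have hb2 : -z.re ≤ z.im := by nlinarith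
      by_cases hx : z.re = 1
      · rw [hx] at hC'
        have : z.im * (z.im + 1) = 0 := by nlinarith
        rcases mul_eq_zero.1 this with h | h
        · exact ⟨0, 3, by decide, (c03 z).2 ⟨hx, h⟩⟩
        · exact ⟨0, 2, by decide, (c02 z).2 ⟨hx, by linarith⟩⟩
      · have hx' : z.re < 1 := lt_of_le_of_ne (by linarith) hx
        have e1 : (z.re - 1 - z.im) * (z.im + z.re) ≥ 0 :=
          mul_nonneg (by linarith) (by linarith)
        have e2 : (z.re - 1 - z.im) * (z.im + z.re) =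
          z.re ^ 2 - z.re - z.im - z.im ^ 2 := by ring
        have e3 : 0 ≤ (1 - z.re) * (1 - 2 * z.re) := by nlinarith
        have e4 : z.re ≤ 1 / 2 := by
          by_contra hcon
          push Not at hcon
          nlinarith
        have e5 : z.re = 1 / 2 := by linarith
        refine ⟨2, 3, by decide, (c23 z).2 ⟨e5, ?_⟩⟩
        linarith
    · replace hC' : E (vC 2) (z : OnePoint ℂ) = 0 := hC'
      rw [C2] at hC'
      have hy : z.im = 0 := by linarith
      rw [hy] at h3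
      have : z.re * (z.re - 1) = 0 := by nlinarith
      rcases mul_eq_zero.1 this with h | h
      · exact ⟨1, 3, by decide, (c13 z).2 ⟨h, hy⟩⟩
      · exact ⟨0, 3, by decide, (c03 z).2 ⟨by linarith, hy⟩⟩
    · replace hC' : E (vC 3) (z : OnePoint ℂ) = 0 := hC'
      rw [C3] at hC'
      have hy : z.im = -1 := by linarith
      rw [hy] at h2
      have : z.re * (z.re - 1) = 0 := by nlinarith
      rcases mul_eq_zero.1 this with h | h
      · exact ⟨1, 2, by decide, (c12 z).2 ⟨h, hy⟩⟩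
      · exact ⟨0, 2, by decide, (c02 z).2 ⟨by linarith, hy⟩⟩

theorem two : ∀ i, ∃ p q, p ≠ q ∧ p ∈ Cir i ∧ q ∈ Cir i := by
  intro i
  obtain ⟨j, k, l, h1, h2, h3, h4, h5, h6⟩ : ∃ j k l : Fin 4, i ≠ j ∧ i ≠ k ∧ i ≠ l ∧ j ≠ k ∧
      j ≠ l ∧ k ≠ l := by
    revert i; decide
  refine ⟨tp j k, tp j l, ?_, tp_Cir j k i h4 h1 h2, tp_Cir j l i h5 h1 h3⟩
  intro h
  have : tp j k ∈ Disc l := by
    rw [h, tp_symm]; exact (tp_mem l j h5.symm).le
  exact tp_not j k l h4 h5.symm h6.symm this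


theorem s_eq (i : Fin 4) (z w : ℂ) (h : (M i) 1 0 * (starRingEnd ℂ z) + (M i) 1 1 ≠ 0)
    (hw : (M i) 0 0 * (starRingEnd ℂ z) + (M i) 0 1 = w * ((M i) 1 0 * (starRingEnd ℂ z) + (M i) 1 1)) :
    s i (z : OnePoint ℂ) = (w : OnePoint ℂ) := by
  show (M i) • (((starRingEnd ℂ z : ℂ)) : OnePoint ℂ) = _
  rw [OnePoint.smul_some_eq_ite, if_neg h, hw, mul_div_cancel_right₀ _ h]

theorem s_inf (i : Fin 4) (h : (M i) 1 0 = 0) :
    s i (OnePoint.infty : OnePoint ℂ) = OnePoint.infty := by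
  show (M i) • (OnePoint.infty : OnePoint ℂ) = _
  rw [OnePoint.smul_infty_eq_ite, if_pos h]

theorem M0 : (M 0) 0 0 = -1 ∧ (M 0) 0 1 = 2 ∧ (M 0) 1 0 = 0 ∧ (M 0) 1 1 = 1 := by
  refine ⟨?_, ?_, ?_, ?_⟩ <;> simp [M, Matrix.GeneralLinearGroup.mkOfDetNeZero]

theorem M1 : (M 1) 0 0 = -1 ∧ (M 1) 0 1 = 0 ∧ (M 1) 1 0 = 0 ∧ (M 1) 1 1 = 1 := by
  refine ⟨?_, ?_, ?_, ?_⟩ <;> simp [M, Matrix.GeneralLinearGroup.mkOfDetNeZero]

theorem M2 : (M 2) 0 0 = 1 - 2 * Complex.I ∧ (M 2) 0 1 = -2 ∧ (M 2) 1 0 = 2 ∧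
    (M 2) 1 1 = -1 - 2 * Complex.I := by
  refine ⟨?_, ?_, ?_, ?_⟩ <;> simp [M, Matrix.GeneralLinearGroup.mkOfDetNeZero]

theorem M3 : (M 3) 0 0 = 1 ∧ (M 3) 0 1 = 0 ∧ (M 3) 1 0 = 2 ∧ (M 3) 1 1 = -1 := by
  refine ⟨?_, ?_, ?_, ?_⟩ <;> simp [M, Matrix.GeneralLinearGroup.mkOfDetNeZero]

theorem s_fix : ∀ i p, E (vD i) p = 0 → s i p = p := by
  intro i p h
  induction p using OnePoint.rec with
  | infty =>
    fin_cases i
    · exact s_inf 0 M0.2.2.1
    · exact s_inf 1 M1.2.2.1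
    · replace h : E (vD 2) OnePoint.infty = 0 := h
      rw [D2i] at h; norm_num at h
    · replace h : E (vD 3) OnePoint.infty = 0 := h
      rw [D3i] at h; norm_num at h
  | coe z =>
    fin_cases i
    · replace h : E (vD 0) (z : OnePoint ℂ) = 0 := h
      rw [D0] at h
      obtain ⟨m1, m2, m3, m4⟩ := M0
      refine s_eq 0 z z ?_ ?_
      · rw [m3, m4]; simp
      · rw [m1, m2, m3, m4]
        apply Complex.ext
        · simp; linarith
        · simp
    · replace h : E (vD 1) (z : OnePoint ℂ) = 0 := h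
      rw [D1] at h
      obtain ⟨m1, m2, m3, m4⟩ := M1
      refine s_eq 1 z z ?_ ?_
      · rw [m3, m4]; simp
      · rw [m1, m2, m3, m4]
        apply Complex.ext
        · simp; linarith
        · simp
    · replace h : E (vD 2) (z : OnePoint ℂ) = 0 := h
      rw [D2] at h
      obtain ⟨m1, m2, m3, m4⟩ := M2
      refine s_eq 2 z z ?_ ?_
      · rw [m3, m4]
        intro hc
        have hr := congrArg Complex.re hc
        have hi := congrArg Complex.im hc
        simp at hr hi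
        have h1 : z.re = 1/2 := by linarith
        have h2 : z.im = -1 := by linarith
        rw [h1, h2] at h
        norm_num at h
      · rw [m1, m2, m3, m4]
        apply Complex.ext
        · simp; nlinarith
        · simp; nlinarith
    · replace h : E (vD 3) (z : OnePoint ℂ) = 0 := h
      rw [D3] at h
      obtain ⟨m1, m2, m3, m4⟩ := M3
      refine s_eq 3 z z ?_ ?_
      · rw [m3, m4]
        intro hc
        have hr := congrArg Complex.re hc
        have hi := congrArg Complex.im hc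
        simp at hr hi
        have h1 : z.re = 1/2 := by linarith
        rw [h1, hi] at h
        norm_num at h
      · rw [m1, m2, m3, m4]
        apply Complex.ext
        · simp; nlinarith
        · simp; nlinarith

theorem bf2 : (∀ i, DiscI i ⊆ Disc i) ∧ (∀ i j, i ≠ j → Disc i ∩ Disc j = {tp i j}) ∧
    (∀ i j, i ≠ j → Disjoint (DiscI i) (Disc j)) ∧
    (∀ i p, E (vD i) p = 0 → s i p = p) ∧
    (∀ i, Disjoint (Cir i) (Disc i)) ∧
    (∀ i j, tp i j = tp j i) ∧
    (∀ i j, i ≠ j → E (vD i) (tp i j) = 0) ∧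
    (∀ i j k, i ≠ j → k ≠ i → k ≠ j → tp i j ∉ Disc k) ∧
    (∀ i j k, i ≠ j → k ≠ i → k ≠ j → tp i j ∈ Cir k) ∧
    (∀ i j k l, i ≠ j → i ≠ k → i ≠ l → j ≠ k → j ≠ l → k ≠ l → Cir i ∩ Cir j = {tp k l}) ∧
    (∀ i j k, i ≠ j → i ≠ k → j ≠ k → Cir i ∩ Cir j ∩ Cir k = ∅) ∧
    (∀ k z, z ∈ Fd → z ∈ Cir k → ∃ i j, i ≠ j ∧ z = tp i j) ∧
    (∀ i, ∃ p q, p ≠ q ∧ p ∈ Cir i ∧ q ∈ Cir i) :=
  ⟨sub, inter, interI, s_fix, Cir_Disc, tp_symm, tp_mem, tp_not, tp_Cir, Cir_inter, Cir_triple,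
    Fd_Cir, two⟩

end Pool.Agent.TH605.AP.BF2
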