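import Pool.Agent.TH605.AP.Main

set_option autoImplicit false

open Set Topology Filter

namespace Pool.Agent.TH605.AP

theorem core (B : BF) (K1 : (∀ z : OnePoint ℂ, fx z = 0 ↔ z ∈ RL) ∧
    (∀ (t : ℝ) (z : OnePoint ℂ), z ≠ ((xi : ℂ) : OnePoint ℂ) → fx (uu t • z) = fx z + t) ∧
    (∀ t : ℝ, uu t • ((xi : ℂ) : OnePoint ℂ) = ((xi : ℂ) : OnePoint ℂ)) ∧
    (∀ z : OnePoint ℂ, fx (gen none • z) = lam * fx z) ∧
    (gen none • ((xi : ℂ) : OnePoint ℂ) = ((xi : ℂ) : OnePoint ℂ)) ∧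
    (∀ t : ℝ, t ≠ 0 →
      (fun w : OnePoint ℂ => uu t • w) '' RL = insert ((xi : ℂ) : OnePoint ℂ) {z | fx z = t}) ∧
    (∀ n : ℤ, (fun w : OnePoint ℂ => (gen none ^ n) • w) '' CC =
      insert ((xi : ℂ) : OnePoint ℂ) {z | fx z = lam ^ n}) ∧
    (∀ (n : ℤ) (z : OnePoint ℂ), (gen none ^ n) • z ∈ KK ↔ z ∈ KK) ∧ 1 < lam)
    (hvec : ∀ w : List (Fin 4), IsRed w → 2 ≤ w.length →
      ∃ V : HV, DL w = {z | E V z ≤ 0} ∧ ip V V = 1 ∧ 0 ≤ V.k ∧ 0 ≤ V.c ∧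
      (w.length : ℝ) ≤ V.k + V.c) :
    ¬ (∀ (P : Set (Set (OnePoint ℂ))),
  (∃ C₁ C₂ C₃ C₄ : Set (OnePoint ℂ),
    (∃ g : Matrix.GeneralLinearGroup (Fin 2) ℂ, C₁ = (fun w : OnePoint ℂ => g • w) '' (insert (OnePoint.infty : OnePoint ℂ) (Set.range (fun x : ℝ => OnePoint.some (x : ℂ))))) ∧
    (∃ g : Matrix.GeneralLinearGroup (Fin 2) ℂ, C₂ = (fun w : OnePoint ℂ => g • w) '' (insert (OnePoint.infty : OnePoint ℂ) (Set.range (fun x : ℝ => OnePoint.some (x : ℂ))))) ∧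
    (∃ g : Matrix.GeneralLinearGroup (Fin 2) ℂ, C₃ = (fun w : OnePoint ℂ => g • w) '' (insert (OnePoint.infty : OnePoint ℂ) (Set.range (fun x : ℝ => OnePoint.some (x : ℂ))))) ∧
    (∃ g : Matrix.GeneralLinearGroup (Fin 2) ℂ, C₄ = (fun w : OnePoint ℂ => g • w) '' (insert (OnePoint.infty : OnePoint ℂ) (Set.range (fun x : ℝ => OnePoint.some (x : ℂ))))) ∧
    (∃! p, p ∈ C₁ ∩ C₂) ∧ (∃! p, p ∈ C₁ ∩ C₃) ∧ (∃! p, p ∈ C₁ ∩ C₄) ∧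
    (∃! p, p ∈ C₂ ∩ C₃) ∧ (∃! p, p ∈ C₂ ∩ C₄) ∧ (∃! p, p ∈ C₃ ∩ C₄) ∧
    C₁ ∩ C₂ ∩ C₃ = ∅ ∧ C₁ ∩ C₂ ∩ C₄ = ∅ ∧ C₁ ∩ C₃ ∩ C₄ = ∅ ∧ C₂ ∩ C₃ ∩ C₄ = ∅ ∧
    P = ⋂₀ {F : Set (Set (OnePoint ℂ)) | C₁ ∈ F ∧ C₂ ∈ F ∧ C₃ ∈ F ∧ C₄ ∈ F ∧
      ∀ S ∈ F, ∀ T ∈ F, ∀ U ∈ F, ∀ V : Set (OnePoint ℂ),
        (∃ g : Matrix.GeneralLinearGroup (Fin 2) ℂ, V = (fun w : OnePoint ℂ => g • w) '' (insert (OnePoint.infty : OnePoint ℂ) (Set.range (fun x : ℝ => OnePoint.some (x : ℂ))))) →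
        (∃! p, p ∈ S ∩ T) → (∃! p, p ∈ T ∩ U) → (∃! p, p ∈ S ∩ U) → S ∩ T ∩ U = ∅ →
        (∃! p, p ∈ V ∩ S) → (∃! p, p ∈ V ∩ T) → (∃! p, p ∈ V ∩ U) → V ∈ F}) →
  ∀ Γ : Subgroup (Matrix.GeneralLinearGroup (Fin 2) ℂ),
  (∀ g ∈ Γ, ∀ S : Set (OnePoint ℂ), S ∈ P ↔ (fun w : OnePoint ℂ => g • w) '' S ∈ P) →
  (∀ z : OnePoint ℂ, derivedSet {w : OnePoint ℂ | ∃ g ∈ Γ, w = g • z} = closure (⋃₀ P)) →
  ∀ C : Set (OnePoint ℂ),
  (∃ g : Matrix.GeneralLinearGroup (Fin 2) ℂ,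
    C = (fun w : OnePoint ℂ => g • w) '' (insert (OnePoint.infty : OnePoint ℂ) (Set.range (fun x : ℝ => OnePoint.some (x : ℂ)))) ∧
    ((fun w : OnePoint ℂ => g • w) '' (OnePoint.some '' {z : ℂ | 0 < z.im}) ∩ closure (⋃₀ P)).Nonempty ∧
    ((fun w : OnePoint ℂ => g • w) '' (OnePoint.some '' {z : ℂ | z.im < 0}) ∩ closure (⋃₀ P)).Nonempty) →
  (IsClosed {h : Matrix.GeneralLinearGroup (Fin 2) ℂ | ∃ γ ∈ Γ,
      (fun w : OnePoint ℂ => h • w) '' (insert (OnePoint.infty : OnePoint ℂ) (Set.range (fun x : ℝ => OnePoint.some (x : ℂ)))) = (fun w : OnePoint ℂ => γ • w) '' C} ∨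
   ∀ h : Matrix.GeneralLinearGroup (Fin 2) ℂ,
     ((fun w : OnePoint ℂ => h • w) '' (insert (OnePoint.infty : OnePoint ℂ) (Set.range (fun x : ℝ => OnePoint.some (x : ℂ)))) ∩ closure (⋃₀ P)).Nonempty →
     h ∈ closure {h' : Matrix.GeneralLinearGroup (Fin 2) ℂ | ∃ γ ∈ Γ,
       (fun w : OnePoint ℂ => h' • w) '' (insert (OnePoint.infty : OnePoint ℂ) (Set.range (fun x : ℝ => OnePoint.some (x : ℂ)))) = (fun w : OnePoint ℂ => γ • w) '' C})) := by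
  have W := Pool.Agent.TH496.J2837.wf B
  have M := Pool.Agent.TH73.J2838.mf B W
  have C : CF := cf
  obtain ⟨k1, k2, k3, k4, k5, k6, k7, k8, k9⟩ := K1
  obtain ⟨l1, l2, l3⟩ := Pool.Agent.TH521.J2847.kf2 B M k4 k9
  have K : KF := { fx_eq_zero := k1, fx_uu := k2, uu_xi := k3, fx_gen := k4, gen_xi := k5,
                   uu_RL := k6, gen_zpow_CC := k7, gen_KK := k8, lam_gt := k9, closed_KK := l1,
                   Tan_KK := l2, uu_tendsto := l3 }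
  have hsh : Shrink := by
    intro z U hU
    obtain ⟨N, hN⟩ := Pool.Agent.TH889.APS2.vec_small z U hU
    refine ⟨N + 2, fun w hw hl hz => ?_⟩
    obtain ⟨V, h1, h2, h3, h4, h5⟩ := hvec w hw (by omega)
    have hNw : (N : ℝ) ≤ w.length := by exact_mod_cast (by omega : N ≤ w.length)
    rw [h1] at hz ⊢
    exact hN V h2 h3 h4 (hNw.trans h5) hz
  have hcl := Pool.Agent.TH914.J2843.s_clTan B
  have hesc := Pool.Agent.TH914.J2843.escape B W hsh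
  have hder := Pool.Agent.TH761.J2844.derived_sub B W hcl hesc
  have hOb := Pool.Agent.TH761.J2844.closure_Ob B hcl hesc
  have hPK := Pool.Agent.TH902.J2845.PK_eq B W C
    (fun V hV i j k l h1 h2 h3 h4 h5 h6 hi hj hk =>
      Pool.Agent.TH18.J2840.apol B C hV i j k l h1 h2 h3 h4 h5 h6 hi hj hk)
  obtain ⟨T, hT, hD⟩ := Pool.Agent.TH914.J2849.exists_good
    (fun w hne hw => Pool.Agent.TH914.J2848.extend B W hsh K w hne hw)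
  have hmaps := Pool.Agent.TH187.J2850.gen_maps B W M
  have hpp := Pool.Agent.TH89.J2851.pingpong B W K hmaps T hT
  have hhits := fun z => Pool.Agent.TH605.AP.J2852.hits B W M hmaps T hT hD z
  have hTan := fun z => Pool.Agent.TH914.J2853.Tan_derived B W hsh (GT T) z (hhits z)
  exact final B W C K hPK hOb hder (GT T) (Pool.Agent.TH111.AP.GT_word W M T) hTan
    (Pool.Agent.TH111.AP.not_closed K T hT hpp) (Pool.Agent.TH111.AP.not_dense K T hT hpp)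
    (Pool.Agent.TH111.AP.separates K)

end Pool.Agent.TH605.AP
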