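import Pool.Agent.TH605.AP.Fin
import Pool.Agent.TH883.AP.J2835
import Pool.Agent.TH496.J2837
import Pool.Agent.TH73.J2838
import Pool.Agent.TH11.J2839
import Pool.Agent.TH18.J2840
import Pool.Agent.TH889.J2842
import Pool.Agent.TH914.J2843
import Pool.Agent.TH761.J2844
import Pool.Agent.TH902.J2845
import Pool.Agent.TH521.J2847
import Pool.Agent.TH914.J2848
import Pool.Agent.TH914.J2849
import Pool.Agent.TH187.J2850
import Pool.Agent.TH89.J2851
import Pool.Agent.TH605.AP.J2852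
import Pool.Agent.TH914.J2853
import Pool.Agent.TH111.J2854

set_option autoImplicit false

open Set Topology Filter

namespace Pool.Agent.TH605.AP

theorem bf_of (h2 : (∀ i, DiscI i ⊆ Disc i) ∧ (∀ i j, i ≠ j → Disc i ∩ Disc j = {tp i j}) ∧
    (∀ i j, i ≠ j → Disjoint (DiscI i) (Disc j)) ∧
    (∀ i p, E (vD i) p = 0 → s i p = p) ∧
    (∀ i, Disjoint (Cir i) (Disc i)) ∧
    (∀ i j, tp i j = tp j i) ∧
    (∀ i j, i ≠ j → E (vD i) (tp i j) = 0) ∧
    (∀ i j k, i ≠ j → k ≠ i → k ≠ j → tp i j ∉ Disc k) ∧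
    (∀ i j k, i ≠ j → k ≠ i → k ≠ j → tp i j ∈ Cir k) ∧
    (∀ i j k l, i ≠ j → i ≠ k → i ≠ l → j ≠ k → j ≠ l → k ≠ l → Cir i ∩ Cir j = {tp k l}) ∧
    (∀ i j k, i ≠ j → i ≠ k → j ≠ k → Cir i ∩ Cir j ∩ Cir k = ∅) ∧
    (∀ k z, z ∈ Fd → z ∈ Cir k → ∃ i j, i ≠ j ∧ z = tp i j) ∧
    (∀ i, ∃ p q, p ≠ q ∧ p ∈ Cir i ∧ q ∈ Cir i)) : BF := by
  obtain ⟨a1, a2, a3, a4, a5, a6, a7, a8, a9, a10, a11, a12, a13⟩ := h2
  obtain ⟨b1, b2, b3, b4, b5, b6⟩ := Pool.Agent.TH883.AP.bf1
  have hrefl : ∀ i : Fin 4, ∀ p, E (refl (vD i) (vD i)) p = - E (vD i) p := by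
    intro i p
    have hip : ip (vD i) (vD i) = 1 := by
      fin_cases i <;> simp [ip, vD] <;> norm_num
    have h : refl (vD i) (vD i) = ⟨-(vD i).k, -(vD i).p, -(vD i).q, -(vD i).c⟩ := by
      simp only [refl, hip]
      congr 1 <;> ring
    rw [h]
    induction p using OnePoint.rec with
    | infty => simp [E]
    | coe z => simp only [E, OnePoint.elim_some]; ring
  have hort : ∀ i j : Fin 4, i ≠ j → refl (vD i) (vC j) = vC j := by
    intro i j hij
    have hip : ip (vC j) (vD i) = 0 := by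
      fin_cases i <;> fin_cases j <;> first | exact absurd rfl hij | (simp [ip, vD, vC]; try norm_num)
    simp only [refl, hip]
    simp
  have hD : ∀ i p, s i p ∈ Disc i ↔ p ∉ DiscI i := by
    intro i p
    obtain ⟨μ, hμ, h⟩ := b2 i (vD i) p
    rw [hrefl] at h
    simp only [Disc, DiscI, mem_setOf_eq, h, not_lt]
    constructor
    · intro h'; nlinarith
    · intro h'; nlinarith
  have hDI : ∀ i p, s i p ∈ DiscI i ↔ p ∉ Disc i := by
    intro i p
    obtain ⟨μ, hμ, h⟩ := b2 i (vD i) p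
    rw [hrefl] at h
    simp only [Disc, DiscI, mem_setOf_eq, h, not_le]
    constructor
    · intro h'; nlinarith
    · intro h'; nlinarith
  have hC : ∀ i j, i ≠ j → s i '' Cir j = Cir j := by
    intro i j hij
    have hmem : ∀ p, p ∈ Cir j → s i p ∈ Cir j := by
      intro p hp
      obtain ⟨μ, hμ, h⟩ := b2 i (vC j) p
      rw [hort i j hij] at h
      simp only [Cir, mem_setOf_eq] at hp ⊢
      rw [h, hp, mul_zero]
    apply Subset.antisymm
    · rintro _ ⟨p, hp, rfl⟩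
      exact hmem p hp
    · intro p hp
      exact ⟨s i p, hmem p hp, b1 i p⟩
  exact { s_s := b1, E_s := b2, s_Disc := hD, s_DiscI := hDI, sub := a1, inter := a2,
          interI := a3, s_fix := a4, s_Cir := hC, Cir_Disc := a5, cont := b3, closedDisc := b4,
          openDiscI := b5, closedCir := b6, tp_symm := a6, tp_mem := a7, tp_not := a8,
          tp_Cir := a9, Cir_inter := a10, Cir_triple := a11, Fd_Cir := a12, two := a13 }

end Pool.Agent.TH605.AP
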