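import Pool.Agent.TH605.AP.Defs

/-! The base facts (finite computations), packaged as a structure so that the later parts can be
written independently; `BF` is proved in `Base.lean`. -/

set_option autoImplicit false

open Set Topology

namespace Pool.Agent.TH605.AP

structure BF : Prop where
  s_s : ∀ i p, s i (s i p) = p
  E_s : ∀ i V p, ∃ μ : ℝ, 0 < μ ∧ E V (s i p) = μ * E (refl (vD i) V) p
  s_Disc : ∀ i p, s i p ∈ Disc i ↔ p ∉ DiscI i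
  s_DiscI : ∀ i p, s i p ∈ DiscI i ↔ p ∉ Disc i
  sub : ∀ i, DiscI i ⊆ Disc i
  inter : ∀ i j, i ≠ j → Disc i ∩ Disc j = {tp i j}
  interI : ∀ i j, i ≠ j → Disjoint (DiscI i) (Disc j)
  s_fix : ∀ i p, E (vD i) p = 0 → s i p = p
  s_Cir : ∀ i j, i ≠ j → s i '' Cir j = Cir j
  Cir_Disc : ∀ i, Disjoint (Cir i) (Disc i)
  cont : ∀ i, Continuous (s i)
  closedDisc : ∀ i, IsClosed (Disc i)
  openDiscI : ∀ i, IsOpen (DiscI i)
  closedCir : ∀ i, IsClosed (Cir i)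
  tp_symm : ∀ i j, tp i j = tp j i
  tp_mem : ∀ i j, i ≠ j → E (vD i) (tp i j) = 0
  tp_not : ∀ i j k, i ≠ j → k ≠ i → k ≠ j → tp i j ∉ Disc k
  tp_Cir : ∀ i j k, i ≠ j → k ≠ i → k ≠ j → tp i j ∈ Cir k
  Cir_inter : ∀ i j k l, i ≠ j → i ≠ k → i ≠ l → j ≠ k → j ≠ l → k ≠ l → Cir i ∩ Cir j = {tp k l}
  Cir_triple : ∀ i j k, i ≠ j → i ≠ k → j ≠ k → Cir i ∩ Cir j ∩ Cir k = ∅
  Fd_Cir : ∀ k z, z ∈ Fd → z ∈ Cir k → ∃ i j, i ≠ j ∧ z = tp i j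
  two : ∀ i, ∃ p q, p ≠ q ∧ p ∈ Cir i ∧ q ∈ Cir i

end Pool.Agent.TH605.AP
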