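import Mathlib

/-!
Definitions for MP_cc6c48_an (S06166): an infinitely generated symmetry group of the strip
Apollonian packing and a circle whose orbit is neither closed nor dense.

Indices `0,1,2,3`: dual discs `Disc 0 = {Re z ≥ 1}`, `Disc 1 = {Re z ≤ 0}`,
`Disc 2 = {|z - (1/2 - i)| ≤ 1/2}`, `Disc 3 = {|z - 1/2| ≤ 1/2}` (all closed, in `ℂ ∪ {∞}`),
`s i` is the reflection in the boundary circle of `Disc i`.  The circles of the packing are the images
of `Cir 0 = {|z + i/2| = 1/2}`, `Cir 1 = {|z - 1 + i/2| = 1/2}`, `Cir 2 = ℝ ∪ {∞}`,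
`Cir 3 = {Im z = -1} ∪ {∞}` under products of the `s i`.
-/

set_option autoImplicit false

open Set Topology

namespace Pool.Agent.TH605.AP

/-- the Riemann sphere -/
abbrev X := OnePoint ℂ

abbrev GLC := Matrix.GeneralLinearGroup (Fin 2) ℂ

/-- the extended real line -/
def RL : Set (OnePoint ℂ) :=
  insert (OnePoint.infty : OnePoint ℂ) (Set.range (fun x : ℝ => OnePoint.some (x : ℂ)))

/-- circles of the sphere -/
def IsCirc (S : Set (OnePoint ℂ)) : Prop :=
  ∃ g : Matrix.GeneralLinearGroup (Fin 2) ℂ, S = (fun w : OnePoint ℂ => g • w) '' RL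

/-- Hermitian forms: `k |z|^2 - 2 (p x + q y) + c` -/
structure HV where
  k : ℝ
  p : ℝ
  q : ℝ
  c : ℝ

/-- the value of the form at a point of the sphere (at `∞`: `k`) -/
noncomputable def E (V : HV) (z : OnePoint ℂ) : ℝ :=
  z.elim V.k (fun z : ℂ => V.k * (z.re ^ 2 + z.im ^ 2) - 2 * (V.p * z.re + V.q * z.im) + V.c)

/-- the Lorentzian inner product -/
noncomputable def ip (V W : HV) : ℝ := V.p * W.p + V.q * W.q - (V.k * W.c + W.k * V.c) / 2

/-- reflection of `V` in the unit vector `W` -/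
noncomputable def refl (W V : HV) : HV :=
  ⟨V.k - 2 * ip V W * W.k, V.p - 2 * ip V W * W.p, V.q - 2 * ip V W * W.q,
    V.c - 2 * ip V W * W.c⟩

/-- the four dual discs -/
noncomputable def vD : Fin 4 → HV := ![⟨0, 1, 0, 2⟩, ⟨0, -1, 0, 0⟩, ⟨2, 1, -2, 2⟩, ⟨2, 1, 0, 0⟩]

/-- the four circles -/
noncomputable def vC : Fin 4 → HV := ![⟨2, 0, -1, 0⟩, ⟨2, 2, -1, 2⟩, ⟨0, 0, 1, 0⟩, ⟨0, 0, -1, 2⟩]

def Disc (i : Fin 4) : Set (OnePoint ℂ) := {z | E (vD i) z ≤ 0}

def DiscI (i : Fin 4) : Set (OnePoint ℂ) := {z | E (vD i) z < 0}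

def Cir (i : Fin 4) : Set (OnePoint ℂ) := {z | E (vC i) z = 0}

/-- matrices of the reflections (composed with complex conjugation) -/
noncomputable def M : Fin 4 → Matrix.GeneralLinearGroup (Fin 2) ℂ :=
  ![Matrix.GeneralLinearGroup.mkOfDetNeZero !![-1, 2; 0, 1] (by simp [Matrix.det_fin_two_of]),
    Matrix.GeneralLinearGroup.mkOfDetNeZero !![-1, 0; 0, 1] (by simp [Matrix.det_fin_two_of]),
    Matrix.GeneralLinearGroup.mkOfDetNeZero
      !![1 - 2 * Complex.I, -2; 2, -1 - 2 * Complex.I] (by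
        rw [Matrix.det_fin_two_of]
        intro h
        have := congrArg Complex.re h
        simp at this),
    Matrix.GeneralLinearGroup.mkOfDetNeZero !![1, 0; 2, -1] (by simp [Matrix.det_fin_two_of])]

/-- complex conjugation on the sphere -/
noncomputable def cj (z : OnePoint ℂ) : OnePoint ℂ := OnePoint.map (starRingEnd ℂ) z

/-- the reflection in the boundary of `Disc i` -/
noncomputable def s (i : Fin 4) (z : OnePoint ℂ) : OnePoint ℂ := M i • cj z

/-- products of reflections along a word -/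
noncomputable def sg : List (Fin 4) → OnePoint ℂ → OnePoint ℂ
  | [], z => z
  | i :: w, z => s i (sg w z)

/-- reduced words -/
def IsRed (w : List (Fin 4)) : Prop := w.IsChain (· ≠ ·)

/-- the closed disc of a word: `DL (w ++ [i]) = sg w '' Disc i` -/
def DL : List (Fin 4) → Set (OnePoint ℂ)
  | [] => Set.univ
  | [i] => Disc i
  | i :: j :: w => s i '' DL (j :: w)

/-- the open disc of a word -/
def DLI : List (Fin 4) → Set (OnePoint ℂ)
  | [] => Set.univ
  | [i] => DiscI i
  | i :: j :: w => s i '' DLI (j :: w)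

/-- tangency points of the dual discs -/
noncomputable def tp : Fin 4 → Fin 4 → OnePoint ℂ :=
  ![![OnePoint.infty, OnePoint.infty, ((1 - Complex.I : ℂ) : OnePoint ℂ), ((1 : ℂ) : OnePoint ℂ)],
    ![OnePoint.infty, OnePoint.infty, ((-Complex.I : ℂ) : OnePoint ℂ), ((0 : ℂ) : OnePoint ℂ)],
    ![((1 - Complex.I : ℂ) : OnePoint ℂ), ((-Complex.I : ℂ) : OnePoint ℂ), OnePoint.infty,
      (((1 - Complex.I) / 2 : ℂ) : OnePoint ℂ)],
    ![((1 : ℂ) : OnePoint ℂ), ((0 : ℂ) : OnePoint ℂ), (((1 - Complex.I) / 2 : ℂ) : OnePoint ℂ),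
      OnePoint.infty]]

/-- all tangency points -/
def Tan : Set (OnePoint ℂ) := {z | ∃ w : List (Fin 4), ∃ i j : Fin 4, i ≠ j ∧ z = sg w (tp i j)}

/-- the fundamental tile -/
def Fd : Set (OnePoint ℂ) := {z | ∀ i, 0 ≤ E (vD i) z}

/-- the circles of the packing -/
def Ob : Set (Set (OnePoint ℂ)) := {S | ∃ w : List (Fin 4), ∃ k : Fin 4, S = sg w '' Cir k}

/-- the packing as in the frozen statement -/
def PK : Set (Set (OnePoint ℂ)) :=
  ⋂₀ {F : Set (Set (OnePoint ℂ)) | Cir 0 ∈ F ∧ Cir 1 ∈ F ∧ Cir 2 ∈ F ∧ Cir 3 ∈ F ∧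
      ∀ S ∈ F, ∀ T ∈ F, ∀ U ∈ F, ∀ V : Set (OnePoint ℂ), IsCirc V →
        (∃! p, p ∈ S ∩ T) → (∃! p, p ∈ T ∩ U) → (∃! p, p ∈ S ∩ U) → S ∩ T ∩ U = ∅ →
        (∃! p, p ∈ V ∩ S) → (∃! p, p ∈ V ∩ T) → (∃! p, p ∈ V ∩ U) → V ∈ F}

/-- complex conjugate of a matrix -/
noncomputable def cjG (g : Matrix.GeneralLinearGroup (Fin 2) ℂ) :
    Matrix.GeneralLinearGroup (Fin 2) ℂ := g.map (starRingEnd ℂ)

/-- the matrix of a word -/
noncomputable def mW : List (Fin 4) → Matrix.GeneralLinearGroup (Fin 2) ℂ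
  | [] => 1
  | i :: w => M i * cjG (mW w)

/-! ### The hyperbolic element and the circle -/

noncomputable def xi : ℝ := Real.sqrt 2 - 1

noncomputable def lam : ℝ := (2 * xi + 5) ^ 2

/-- `Im (1/(z - ξ))` -/
noncomputable def fx (z : OnePoint ℂ) : ℝ := z.elim 0 (fun z : ℂ => (1 / (z - (xi : ℂ))).im)

/-- the closed set `K` swept out by the orbit of the circle under `h` -/
def KK : Set (OnePoint ℂ) := RL ∪ {z | ∃ n : ℤ, fx z = lam ^ n}

/-- parabolic maps fixing `ξ` -/
noncomputable def uu (t : ℝ) : Matrix.GeneralLinearGroup (Fin 2) ℂ :=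
  Matrix.GeneralLinearGroup.mkOfDetNeZero
    !![1 + Complex.I * t * xi, -(Complex.I * t * xi ^ 2); Complex.I * t,
      1 - Complex.I * t * xi] (by
        rw [Matrix.det_fin_two_of]
        have : (1 + Complex.I * t * xi) * (1 - Complex.I * t * xi) -
          -(Complex.I * t * xi ^ 2) * (Complex.I * t) = 1 := by ring
        rw [this]; exact one_ne_zero)

/-- the circle -/
def CC : Set (OnePoint ℂ) := (fun w : OnePoint ℂ => uu 1 • w) '' RL

/-! ### The generators -/

/-- repelling word of a generator -/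
def mw : Option (List (Fin 4)) → List (Fin 4)
  | none => [1]
  | some v => v ++ [v.getLastD 0 + 1]

/-- attracting word of a generator -/
def pw : Option (List (Fin 4)) → List (Fin 4)
  | none => [3, 1, 0, 1]
  | some v => v ++ [v.getLastD 0 + 2, v.getLastD 0 + 1]

/-- the generator: maps the complement of `DLI (mw t)` onto `DL (pw t)` -/
noncomputable def gen (t : Option (List (Fin 4))) : Matrix.GeneralLinearGroup (Fin 2) ℂ :=
  mW (pw t ++ (mw t).dropLast.reverse)

/-- `x` is one of the two words of the generator `t` -/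
def gw (t : Option (List (Fin 4))) (x : List (Fin 4)) : Prop := x = mw t ∨ x = pw t

/-- admissible families of generators -/
structure Good (T : Set (Option (List (Fin 4)))) : Prop where
  none_mem : none ∈ T
  ne : ∀ v, some v ∈ T → v ≠ []
  red : ∀ v, some v ∈ T → IsRed v
  avoid : ∀ v, some v ∈ T → Disjoint (DL v) KK
  anti : ∀ t ∈ T, ∀ t' ∈ T, t ≠ t' → ∀ x y, gw t x → gw t' y → ¬ x <+: y

/-- every reduced word is comparable with a generator word -/
def Dns (T : Set (Option (List (Fin 4)))) : Prop :=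
  ∀ w : List (Fin 4), w ≠ [] → IsRed w → ∃ t ∈ T, ∃ x, gw t x ∧ (x <+: w ∨ w <+: x)

/-- the group -/
noncomputable def GT (T : Set (Option (List (Fin 4)))) :
    Subgroup (Matrix.GeneralLinearGroup (Fin 2) ℂ) := Subgroup.closure (gen '' T)

end Pool.Agent.TH605.AP
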