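import Pool.Agent.TH605.AP.WF

set_option autoImplicit false

open Set Topology Filter

namespace Pool.Agent.TH605.AP

theorem sg_mem_Ob (W : WF) {S : Set (OnePoint ℂ)} (u : List (Fin 4)) (h : S ∈ Ob) :
    sg u '' S ∈ Ob := by
  obtain ⟨w, k, rfl⟩ := h
  refine ⟨u ++ w, k, ?_⟩
  rw [image_image]
  refine image_congr (fun z _ => ?_)
  exact (W.sg_append u w z).symm

theorem exUnique_Cir (B : BF) {i j : Fin 4} (hij : i ≠ j) : ∃! p, p ∈ Cir i ∩ Cir j := by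
  obtain ⟨k, l, h1, h2, h3, h4, h5⟩ : ∃ k l : Fin 4, i ≠ k ∧ i ≠ l ∧ j ≠ k ∧ j ≠ l ∧ k ≠ l := by
    revert i j; decide
  rw [B.Cir_inter i j k l hij h1 h2 h3 h4 h5]
  exact ⟨tp k l, rfl, fun y hy => hy⟩

theorem final (B : BF) (W : WF) (C : CF) (K : KF) (hPK : PK = Ob)
    (hOb : closure (⋃₀ Ob) = closure Tan)
    (hder : ∀ z : OnePoint ℂ, derivedSet {w | ∃ u : List (Fin 4), w = sg u z} ⊆ closure Tan)
    (G : Subgroup (Matrix.GeneralLinearGroup (Fin 2) ℂ))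
    (hword : ∀ γ ∈ G, ∃ u : List (Fin 4), ∀ z : OnePoint ℂ, γ • z = sg u z)
    (hTan : ∀ z : OnePoint ℂ, Tan ⊆ derivedSet {w : OnePoint ℂ | ∃ g ∈ G, w = g • z})
    (hnc : ¬ IsClosed {h : Matrix.GeneralLinearGroup (Fin 2) ℂ | ∃ γ ∈ G,
      (fun w : OnePoint ℂ => h • w) '' RL = (fun w : OnePoint ℂ => γ • w) '' CC})
    (hnd : ∃ h : Matrix.GeneralLinearGroup (Fin 2) ℂ,
      (OnePoint.infty : OnePoint ℂ) ∈ (fun w : OnePoint ℂ => h • w) '' RL ∧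
      h ∉ closure {h' : Matrix.GeneralLinearGroup (Fin 2) ℂ | ∃ γ ∈ G,
        (fun w : OnePoint ℂ => h' • w) '' RL = (fun w : OnePoint ℂ => γ • w) '' CC})
    (hsep : ((2 : ℂ) : OnePoint ℂ) ∈
        (fun w : OnePoint ℂ => uu 1 • w) '' (OnePoint.some '' {z : ℂ | 0 < z.im})
      ∧ (((1 - Complex.I) / 2 : ℂ) : OnePoint ℂ) ∈
        (fun w : OnePoint ℂ => uu 1 • w) '' (OnePoint.some '' {z : ℂ | z.im < 0})) :
    ¬ (∀ (P : Set (Set (OnePoint ℂ))),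
  (∃ C₁ C₂ C₃ C₄ : Set (OnePoint ℂ),
    (∃ g : Matrix.GeneralLinearGroup (Fin 2) ℂ, C₁ = (fun w : OnePoint ℂ => g • w) '' (insert (OnePoint.infty : OnePoint ℂ) (Set.range (fun x : ℝ => OnePoint.some (x : ℂ))))) ∧
    (∃ g : Matrix.GeneralLinearGroup (Fin 2) ℂ, C₂ = (fun w : OnePoint ℂ => g • w) '' (insert (OnePoint.infty : OnePoint ℂ) (Set.range (fun x : ℝ => OnePoint.some (x : ℂ))))) ∧
    (∃ g : Matrix.GeneralLinearGroup (Fin 2) ℂ, C₃ = (fun w : OnePoint ℂ => g • w) '' (insert (OnePoint.infty : OnePoint ℂ) (Set.range (fun x : ℝ => OnePoint.some (x : ℂ))))) ∧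
    (∃ g : Matrix.GeneralLinearGroup (Fin 2) ℂ, C₄ = (fun w : OnePoint ℂ => g • w) '' (insert (OnePoint.infty : OnePoint ℂ) (Set.range (fun x : ℝ => OnePoint.some (x : ℂ))))) ∧
    (∃! p, p ∈ C₁ ∩ C₂) ∧ (∃! p, p ∈ C₁ ∩ C₃) ∧ (∃! p, p ∈ C₁ ∩ C₄) ∧
    (∃! p, p ∈ C₂ ∩ C₃) ∧ (∃! p, p ∈ C₂ ∩ C₄) ∧ (∃! p, p ∈ C₃ ∩ C₄) ∧
    C₁ ∩ C₂ ∩ C₃ = ∅ ∧ C₁ ∩ C₂ ∩ C₄ = ∅ ∧ C₁ ∩ C₃ ∩ C₄ = ∅ ∧ C₂ ∩ C₃ ∩ C₄ = ∅ ∧
    P = ⋂₀ {F : Set (Set (OnePoint ℂ)) | C₁ ∈ F ∧ C₂ ∈ F ∧ C₃ ∈ F ∧ C₄ ∈ F ∧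
      ∀ S ∈ F, ∀ T ∈ F, ∀ U ∈ F, ∀ V : Set (OnePoint ℂ),
        (∃ g : Matrix.GeneralLinearGroup (Fin 2) ℂ, V = (fun w : OnePoint ℂ => g • w) '' (insert (OnePoint.infty : OnePoint ℂ) (Set.range (fun x : ℝ => OnePoint.some (x : ℂ))))) →
        (∃! p, p ∈ S ∩ T) → (∃! p, p ∈ T ∩ U) → (∃! p, p ∈ S ∩ U) → S ∩ T ∩ U = ∅ →
        (∃! p, p ∈ V ∩ S) → (∃! p, p ∈ V ∩ T) → (∃! p, p ∈ V ∩ U) → V ∈ F}) →
  ∀ Γ : Subgroup (Matrix.GeneralLinearGroup (Fin 2) ℂ),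
  (∀ g ∈ Γ, ∀ S : Set (OnePoint ℂ), S ∈ P ↔ (fun w : OnePoint ℂ => g • w) '' S ∈ P) →
  (∀ z : OnePoint ℂ, derivedSet {w : OnePoint ℂ | ∃ g ∈ Γ, w = g • z} = closure (⋃₀ P)) →
  ∀ C : Set (OnePoint ℂ),
  (∃ g : Matrix.GeneralLinearGroup (Fin 2) ℂ,
    C = (fun w : OnePoint ℂ => g • w) '' (insert (OnePoint.infty : OnePoint ℂ) (Set.range (fun x : ℝ => OnePoint.some (x : ℂ)))) ∧
    ((fun w : OnePoint ℂ => g • w) '' (OnePoint.some '' {z : ℂ | 0 < z.im}) ∩ closure (⋃₀ P)).Nonempty ∧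
    ((fun w : OnePoint ℂ => g • w) '' (OnePoint.some '' {z : ℂ | z.im < 0}) ∩ closure (⋃₀ P)).Nonempty) →
  (IsClosed {h : Matrix.GeneralLinearGroup (Fin 2) ℂ | ∃ γ ∈ Γ,
      (fun w : OnePoint ℂ => h • w) '' (insert (OnePoint.infty : OnePoint ℂ) (Set.range (fun x : ℝ => OnePoint.some (x : ℂ)))) = (fun w : OnePoint ℂ => γ • w) '' C} ∨
   ∀ h : Matrix.GeneralLinearGroup (Fin 2) ℂ,
     ((fun w : OnePoint ℂ => h • w) '' (insert (OnePoint.infty : OnePoint ℂ) (Set.range (fun x : ℝ => OnePoint.some (x : ℂ)))) ∩ closure (⋃₀ P)).Nonempty →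
     h ∈ closure {h' : Matrix.GeneralLinearGroup (Fin 2) ℂ | ∃ γ ∈ Γ,
       (fun w : OnePoint ℂ => h' • w) '' (insert (OnePoint.infty : OnePoint ℂ) (Set.range (fun x : ℝ => OnePoint.some (x : ℂ)))) = (fun w : OnePoint ℂ => γ • w) '' C})) := by
  intro H
  -- membership of the tangency points
  have hTcl : ∀ i j, i ≠ j → tp i j ∈ closure (⋃₀ PK) := by
    intro i j hij
    rw [hPK, hOb]
    exact subset_closure ⟨[], i, j, hij, rfl⟩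
  have hRL : Cir 2 ⊆ closure (⋃₀ PK) := by
    rw [hPK]
    refine subset_trans ?_ subset_closure
    refine subset_sUnion_of_mem ⟨[], 2, ?_⟩
    simp [sg]
  have h01 : (0 : Fin 4) ≠ 1 := by decide
  have h02 : (0 : Fin 4) ≠ 2 := by decide
  have h03 : (0 : Fin 4) ≠ 3 := by decide
  have h12 : (1 : Fin 4) ≠ 2 := by decide
  have h13 : (1 : Fin 4) ≠ 3 := by decide
  have h23 : (2 : Fin 4) ≠ 3 := by decide
  have key := H PK ⟨Cir 0, Cir 1, Cir 2, Cir 3, C.isCirc_Cir 0, C.isCirc_Cir 1, C.isCirc_Cir 2,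
    C.isCirc_Cir 3, exUnique_Cir B h01, exUnique_Cir B h02, exUnique_Cir B h03,
    exUnique_Cir B h12, exUnique_Cir B h13, exUnique_Cir B h23,
    B.Cir_triple 0 1 2 h01 h02 h12, B.Cir_triple 0 1 3 h01 h03 h13,
    B.Cir_triple 0 2 3 h02 h03 h23, B.Cir_triple 1 2 3 h12 h13 h23, rfl⟩ G
    (by
      intro g hg S
      rw [hPK]
      obtain ⟨u, hu⟩ := hword g hg
      have himg : ∀ S : Set (OnePoint ℂ), (fun w : OnePoint ℂ => g • w) '' S = sg u '' S :=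
        fun S => image_congr (fun z _ => hu z)
      rw [himg]
      constructor
      · exact sg_mem_Ob W u
      · intro h
        have h' := sg_mem_Ob W u.reverse h
        rw [image_image] at h'
        have : (fun z => sg u.reverse (sg u z)) '' S = S := by
          have : (fun z => sg u.reverse (sg u z)) = id := by
            funext z; exact W.sg_reverse u z
          rw [this, image_id]
        rwa [this] at h')
    (by
      intro z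
      rw [hPK, hOb]
      apply Subset.antisymm
      · refine subset_trans (derivedSet_mono _ _ ?_) (hder z)
        rintro w ⟨g, hg, rfl⟩
        obtain ⟨u, hu⟩ := hword g hg
        exact ⟨u, hu z⟩
      · refine closure_minimal (hTan z) ?_
        exact isClosed_derivedSet _)
    CC ⟨uu 1, rfl, ⟨((2 : ℂ) : OnePoint ℂ), hsep.1, ?_⟩,
      ⟨(((1 - Complex.I) / 2 : ℂ) : OnePoint ℂ), hsep.2, ?_⟩⟩
  · rcases key with h | h
    · exact hnc h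
    · obtain ⟨h0, h1, h2⟩ := hnd
      refine h2 (h h0 ⟨OnePoint.infty, h1, ?_⟩)
      exact hRL (by simp [Cir, E, vC])
  · exact hRL (by simp [Cir, E, vC])
  · exact hTcl 2 3 h23

end Pool.Agent.TH605.AP
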