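import Pool.Agent.TH605.AP.WF

/-!
# AP-H1 (job 2852): every orbit enters every disc
-/

set_option autoImplicit false

open Set Topology Filter

namespace Pool.Agent.TH605.AP.J2852

open Pool.Agent.TH605.AP

/-- decomposition of the generator words -/
lemma dec (t : Option (List (Fin 4))) (hne : ∀ v, t = some v → v ≠ []) :
    ∃ (m P : List (Fin 4)) (i : Fin 4), mw t = m ++ [i] ∧ pw t = P ++ [i] ∧
      ¬ mw t <+: pw t ∧ ¬ pw t <+: mw t ∧ (mw t).length ≤ (pw t).length := by
  rcases t with _ | v
  · refine ⟨[], [3, 1, 0], 1, rfl, rfl, ?_, ?_, by simp [mw, pw]⟩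
    · simp only [mw, pw]; decide
    · simp only [mw, pw]; decide
  · refine ⟨v, v ++ [v.getLastD 0 + 2], v.getLastD 0 + 1, rfl, by simp [pw], ?_, ?_,
      by simp [mw, pw]⟩
    · simp only [mw, pw, List.prefix_append_right_inj]
      intro h
      rw [List.cons_prefix_cons] at h
      have h1 := h.1
      generalize v.getLastD 0 = l at h1
      revert l; decide
    · simp only [mw, pw, List.prefix_append_right_inj]
      intro h
      have := h.length_le
      simp at this

lemma red_words (t : Option (List (Fin 4))) (hne : ∀ v, t = some v → v ≠ [])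
    (hr : ∀ v, t = some v → IsRed v) : IsRed (mw t) ∧ IsRed (pw t) := by
  rcases t with _ | v
  · constructor
    · simp only [mw, IsRed]; decide
    · simp only [pw, IsRed]; decide
  · have h1 := hne v rfl
    have h2 := hr v rfl
    have h3 : v.getLast? = some (v.getLastD 0) := by
      rw [List.getLastD_eq_getLast?, List.getLast?_eq_some_getLast h1]
      rfl
    unfold IsRed at h2 ⊢
    constructor
    · simp only [mw]
      rw [List.isChain_append]
      refine ⟨h2, List.isChain_singleton _, ?_⟩
      rw [h3]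
      intro x hx y hy
      simp only [Option.mem_def, Option.some.injEq, List.head?_cons] at hx hy
      rw [← hx, ← hy]
      generalize v.getLastD 0 = l
      revert l; decide
    · simp only [pw]
      rw [List.isChain_append]
      refine ⟨h2, ?_, ?_⟩
      · rw [List.isChain_pair]
        generalize v.getLastD 0 = l
        revert l; decide
      · rw [h3]
        intro x hx y hy
        simp only [Option.mem_def, Option.some.injEq, List.head?_cons] at hx hy
        rw [← hx, ← hy]
        generalize v.getLastD 0 = l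
        revert l; decide

/-- no generator word is an initial segment of `y` -/
def Free (T : Set (Option (List (Fin 4)))) (y : List (Fin 4)) : Prop :=
  ∀ t ∈ T, ∀ x, gw t x → ¬ x <+: y

lemma Free.pfx {T : Set (Option (List (Fin 4)))} {y y' : List (Fin 4)} (h : Free T y)
    (h' : y' <+: y) : Free T y' := fun t ht x hx hp => h t ht x hx (hp.trans h')

lemma free_of {T : Set (Option (List (Fin 4)))} (hT : Good T) {t : Option (List (Fin 4))}
    (ht : t ∈ T) {x y : List (Fin 4)} (hx : gw t x) (hy : y <+: x) (h1 : ¬ mw t <+: y)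
    (h2 : ¬ pw t <+: y) : Free T y := by
  intro t' ht' x' hx' hp
  by_cases h : t' = t
  · subst h
    rcases hx' with rfl | rfl
    · exact h1 hp
    · exact h2 hp
  · exact hT.anti t' ht' t ht h x' x hx' hx (hp.trans hy)

section
variable (B : BF) (W : WF) (M : MF)
    (hmaps : ∀ (t : Option (List (Fin 4))) (z : OnePoint ℂ),
      (gen t • z ∈ DL (pw t) ↔ z ∉ DLI (mw t)) ∧ (gen t • z ∈ DLI (pw t) ↔ z ∉ DL (mw t)))
    (T : Set (Option (List (Fin 4)))) (hT : Good T) (hD : Dns T)
include W hmaps hT hD

omit W hmaps hD in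
lemma red_gw {t : Option (List (Fin 4))} (ht : t ∈ T) {x : List (Fin 4)} (hx : gw t x) :
    IsRed x := by
  have h := red_words t (fun v hv => hT.ne v (hv ▸ ht)) (fun v hv => hT.red v (hv ▸ ht))
  rcases hx with rfl | rfl
  · exact h.1
  · exact h.2

omit W hmaps in
lemma other (t : Option (List (Fin 4))) : ∃ t2 ∈ T, t2 ≠ t := by
  by_cases h : t = none
  · subst h
    obtain ⟨t', ht', x, hx, hc⟩ := hD [0] (by simp) (by unfold IsRed; decide)
    refine ⟨t', ht', ?_⟩
    rintro rfl
    rcases hx with rfl | rfl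
    · simp only [mw] at hc; revert hc; decide
    · simp only [pw] at hc; revert hc; decide
  · exact ⟨none, hT.none_mem, fun h' => h h'.symm⟩

omit hmaps hD in
lemma disj2 {t t2 : Option (List (Fin 4))} (ht : t ∈ T) (ht2 : t2 ∈ T) (hne : t2 ≠ t)
    {x y : List (Fin 4)} (hx : gw t x) (hy : gw t2 y) : Disjoint (DLI x) (DL y) :=
  W.DL_disj x y (red_gw T hT ht hx) (red_gw T hT ht2 hy)
    (hT.anti t ht t2 ht2 hne.symm x y hx hy) (hT.anti t2 ht2 t ht hne y x hy hx)

/-- a generator word of `t`, and the one at the other side -/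
lemma baseB {t : Option (List (Fin 4))} (ht : t ∈ T) {x : List (Fin 4)} (hx : gw t x)
    (z : OnePoint ℂ) : ∃ γ ∈ GT T, γ • z ∈ DL x := by
  -- the element `g` maps the complement of `DLI x'` to `DL x`
  obtain ⟨g, hg, x', hx', hmap⟩ : ∃ g ∈ GT T, ∃ x', gw t x' ∧
      ∀ z : OnePoint ℂ, z ∉ DLI x' → g • z ∈ DL x := by
    rcases hx with rfl | rfl
    · refine ⟨(gen t)⁻¹, Subgroup.inv_mem _ (Subgroup.subset_closure (Set.mem_image_of_mem _ ht)),
        pw t, Or.inr rfl, fun z hz => ?_⟩
      have h1 := (hmaps t ((gen t)⁻¹ • z)).2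
      rw [smul_inv_smul] at h1
      by_contra hc
      exact hz (h1.2 hc)
    · exact ⟨gen t, Subgroup.subset_closure (Set.mem_image_of_mem _ ht), mw t, Or.inl rfl,
        fun z hz => (hmaps t z).1.2 hz⟩
  by_cases hz : z ∈ DLI x'
  · obtain ⟨t2, ht2, hne⟩ := other T hT hD t
    have h2 : z ∉ DLI (mw t2) := fun h3 =>
      (Set.disjoint_left.1 (disj2 W T hT ht ht2 hne hx' (Or.inl rfl)) hz) (W.DLI_subset _ h3)
    have h3 : gen t2 • z ∈ DL (pw t2) := (hmaps t2 z).1.2 h2
    have h4 : gen t2 • z ∉ DLI x' := fun h5 =>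
      (Set.disjoint_left.1 (disj2 W T hT ht ht2 hne hx' (Or.inr rfl)) h5) h3
    refine ⟨g * gen t2, Subgroup.mul_mem _ hg
      (Subgroup.subset_closure (Set.mem_image_of_mem _ ht2)), ?_⟩
    rw [mul_smul]
    exact hmap _ h4
  · exact ⟨g, hg, hmap z hz⟩

include B M in
lemma main (n : ℕ) : ∀ (y u : List (Fin 4)), Free T y → IsRed y → IsRed u → u ≠ [] →
    u.length = n → ∀ z : OnePoint ℂ, ∃ γ ∈ GT T, γ • z ∈ sg y '' DL u := by
  induction n using Nat.strong_induction_on with
  | _ n ih =>
  intro y u hy hyr hur hu hn z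
  by_cases hred : IsRed (y ++ u)
  · -- case 2
    rw [← W.DL_append y u hu]
    obtain ⟨t, ht, x, hx, hc⟩ := hD (y ++ u) (by simp [hu]) hred
    have big : y ++ u <+: x → ∃ γ ∈ GT T, γ • z ∈ DL (y ++ u) := by
      intro h
      obtain ⟨γ, hγ, h1⟩ := baseB W hmaps T hT hD ht hx z
      exact ⟨γ, hγ, W.DL_prefix _ _ (red_gw T hT ht hx) h h1⟩
    rcases hc with hc | hc
    swap
    · exact big hc
    have h1 : y <+: x := by
      rcases List.prefix_or_prefix_of_prefix hc (List.prefix_append y u) with h | h
      · exact absurd h (hy t ht x hx)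
      · exact h
    obtain ⟨u1, rfl⟩ := h1
    rw [List.prefix_append_right_inj] at hc
    obtain ⟨u2, rfl⟩ := hc
    by_cases hu2 : u2 = []
    · subst hu2
      exact big (by simp)
    have hu1 : u1 ≠ [] := by
      rintro rfl
      exact hy t ht _ hx (by simp)
    have hlen : u2.length < n := by
      rw [← hn, List.length_append]
      have := List.length_pos_iff.2 hu1
      omega
    have hred2 : IsRed u2 := List.IsChain.right_of_append hur
    rw [← List.append_assoc, W.DL_append _ _ hu2]
    obtain ⟨m, P, i, hm, hP, n1, n2, hl⟩ := dec t (fun v hv => hT.ne v (hv ▸ ht))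
    have hPf : Free T P := by
      refine free_of hT ht (x := pw t) (Or.inr rfl) ⟨[i], hP.symm⟩ (fun h => n1 ?_) fun h => ?_
      · exact h.trans ⟨[i], hP.symm⟩
      · have := h.length_le
        rw [hP] at this
        simp at this
    have hmf : Free T m := by
      refine free_of hT ht (x := mw t) (Or.inl rfl) ⟨[i], hm.symm⟩ (fun h => ?_) fun h => ?_
      · have := h.length_le
        rw [hm] at this
        simp at this
      · have := h.length_le
        rw [hm] at hl
        simp at hl
        omega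
    have hmr : IsRed m := by
      have := red_gw T hT ht (x := mw t) (Or.inl rfl)
      rw [hm] at this
      exact List.IsChain.left_of_append this
    have hPr : IsRed P := by
      have := red_gw T hT ht (x := pw t) (Or.inr rfl)
      rw [hP] at this
      exact List.IsChain.left_of_append this
    have hdl : (mw t).dropLast = m := by rw [hm]; simp
    obtain ⟨x, hxe⟩ : ∃ x, x = y ++ u1 := ⟨_, rfl⟩
    rw [← hxe] at hx ⊢
    rcases hx with hx | hx
    · -- `x = mw t`
      obtain ⟨γ, hγ, w', hw', hw⟩ := ih u2.length hlen P u2 hPf hPr hred2 hu2 rfl z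
      refine ⟨(gen t)⁻¹ * γ, Subgroup.mul_mem _ (Subgroup.inv_mem _
        (Subgroup.subset_closure (Set.mem_image_of_mem _ ht))) hγ, w', hw', ?_⟩
      rw [mul_smul, ← hw, M.gen_inv_smul, hdl, hP, List.reverse_append, W.sg_append, W.sg_append,
        W.sg_reverse, hx, hm, W.sg_append]
      rfl
    · obtain ⟨γ, hγ, w', hw', hw⟩ := ih u2.length hlen m u2 hmf hmr hred2 hu2 rfl z
      refine ⟨gen t * γ, Subgroup.mul_mem _
        (Subgroup.subset_closure (Set.mem_image_of_mem _ ht)) hγ, w', hw', ?_⟩
      rw [mul_smul, ← hw, M.gen_smul, hdl, W.sg_append, W.sg_reverse, hx]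
  · -- case 1
    obtain ⟨y', a, rfl, u', rfl⟩ : ∃ y' a, y = y' ++ [a] ∧ ∃ u', u = a :: u' := by
      have h1 : y ≠ [] := by
        rintro rfl
        exact hred hur
      obtain ⟨a, ha⟩ : ∃ a, y.getLast? = some a := ⟨_, List.getLast?_eq_some_getLast h1⟩
      obtain ⟨y', hy'⟩ := List.getLast?_eq_some_iff.1 ha
      obtain ⟨b, u', hbu⟩ := List.exists_cons_of_ne_nil hu
      refine ⟨y', a, hy', u', ?_⟩
      rw [hbu]
      by_contra hc
      apply hred
      unfold IsRed at *
      rw [List.isChain_append]
      refine ⟨hyr, hur, ?_⟩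
      rw [ha, hbu]
      intro p hp q hq
      simp only [Option.mem_def, Option.some.injEq, List.head?_cons] at hp hq
      subst hp hq
      intro hpq
      apply hc
      rw [hpq]
    by_cases hu' : u' = []
    · subst hu'
      -- the set is the complement of `DLI (y' ++ [a])`
      have e : ∀ w : OnePoint ℂ, w ∉ DLI (y' ++ [a]) → w ∈ sg (y' ++ [a]) '' DL [a] := by
        intro w hw
        rw [W.DLI_append _ _ (by simp)] at hw
        have h1 : sg y' (sg y'.reverse w) = w := by
          have := W.sg_reverse y'.reverse w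
          rwa [List.reverse_reverse] at this
        refine ⟨s a (sg y'.reverse w), ?_, ?_⟩
        · change s a (sg y'.reverse w) ∈ Disc a
          rw [B.s_Disc]
          intro h2
          exact hw ⟨_, h2, h1⟩
        · rw [W.sg_append]
          change sg y' (s a (s a (sg y'.reverse w))) = w
          rw [B.s_s, h1]
      obtain ⟨γ, hγ, h1⟩ := baseB W hmaps T hT hD hT.none_mem (x := [1]) (Or.inl rfl) z
      refine ⟨γ, hγ, e _ fun h2 => ?_⟩
      refine Set.disjoint_left.1 (W.DL_disj (y' ++ [a]) [1] hyr (by unfold IsRed; decide) ?_ ?_)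
        h2 h1
      · intro h3
        have h4 : y' ++ [a] = [1] := by
          refine h3.eq_of_length_le ?_
          simp
        exact hy none hT.none_mem [1] (Or.inl rfl) (by rw [h4])
      · exact hy none hT.none_mem [1] (Or.inl rfl)
    · have hlen : u'.length < n := by rw [← hn]; simp
      obtain ⟨γ, hγ, w, hw, h1⟩ := ih u'.length hlen y' u' (hy.pfx (List.prefix_append _ _))
        (List.IsChain.left_of_append hyr)
        (List.IsChain.right_of_append (l₁ := [a]) hur) hu' rfl z
      refine ⟨γ, hγ, s a w, ?_, ?_⟩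
      · have h2 := W.DL_append [a] u' hu'
        have h3 : DL (a :: u') = sg [a] '' DL u' := h2
        rw [h3]
        exact ⟨w, hw, rfl⟩
      · rw [W.sg_append, ← h1]
        change sg y' (s a (s a w)) = sg y' w
        rw [B.s_s]

end

theorem hits (B : BF) (W : WF) (M : MF)
    (hmaps : ∀ (t : Option (List (Fin 4))) (z : OnePoint ℂ),
      (gen t • z ∈ DL (pw t) ↔ z ∉ DLI (mw t)) ∧ (gen t • z ∈ DLI (pw t) ↔ z ∉ DL (mw t)))
    (T : Set (Option (List (Fin 4)))) (hT : Good T) (hD : Dns T)
    (z : OnePoint ℂ) (w : List (Fin 4)) (hne : w ≠ []) (hw : IsRed w) :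
    ∃ γ ∈ GT T, γ • z ∈ DL w := by
  have hf : Free T [] := by
    intro t ht x hx hp
    have h1 : x = [] := List.prefix_nil.1 hp
    obtain ⟨m, P, i, hm, hP, -⟩ := dec t (fun v hv => hT.ne v (hv ▸ ht))
    rcases hx with rfl | rfl
    · rw [hm] at h1; simp at h1
    · rw [hP] at h1; simp at h1
  obtain ⟨γ, hγ, w', hw', h⟩ := main B W M hmaps T hT hD w.length [] w hf
    (by unfold IsRed; exact List.isChain_nil) hw hne rfl z
  refine ⟨γ, hγ, ?_⟩
  rw [← h]
  exact hw'

end Pool.Agent.TH605.AP.J2852
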