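import Pool.Agent.TH605.AP.BF

/-! Interfaces (packaged facts) used by the later parts; proved in separate files. -/

set_option autoImplicit false

open Set Topology Filter

namespace Pool.Agent.TH605.AP

/-- facts about words -/
structure WF : Prop where
  sg_append : ∀ (u v : List (Fin 4)) (z : OnePoint ℂ), sg (u ++ v) z = sg u (sg v z)
  sg_reverse : ∀ (u : List (Fin 4)) (z : OnePoint ℂ), sg u.reverse (sg u z) = z
  cont_sg : ∀ u : List (Fin 4), Continuous (sg u)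
  DL_append : ∀ u v : List (Fin 4), v ≠ [] → DL (u ++ v) = sg u '' DL v
  DLI_append : ∀ u v : List (Fin 4), v ≠ [] → DLI (u ++ v) = sg u '' DLI v
  DLI_subset : ∀ w : List (Fin 4), DLI w ⊆ DL w
  DL_head : ∀ (i : Fin 4) (w : List (Fin 4)), IsRed (i :: w) → DL (i :: w) ⊆ Disc i
  DL_prefix : ∀ u w : List (Fin 4), IsRed w → u <+: w → DL w ⊆ DL u
  DL_disj : ∀ u w : List (Fin 4), IsRed u → IsRed w → ¬ u <+: w → ¬ w <+: u →
    Disjoint (DLI u) (DL w)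
  closed_DL : ∀ w : List (Fin 4), IsClosed (DL w)

/-- facts about matrices of words -/
structure MF : Prop where
  mW_even : ∀ w : List (Fin 4), Even w.length → ∀ z : OnePoint ℂ, mW w • z = sg w z
  mW_odd : ∀ w : List (Fin 4), Odd w.length → ∀ z : OnePoint ℂ, mW w • z = sg w (cj z)
  gen_smul : ∀ (t : Option (List (Fin 4))) (z : OnePoint ℂ),
    gen t • z = sg (pw t ++ (mw t).dropLast.reverse) z
  gen_inv_smul : ∀ (t : Option (List (Fin 4))) (z : OnePoint ℂ),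
    (gen t)⁻¹ • z = sg ((mw t).dropLast ++ (pw t).reverse) z

/-- facts about circles -/
structure CF : Prop where
  isCirc_Cir : ∀ i, IsCirc (Cir i)
  isCirc_smul : ∀ (V : Set (OnePoint ℂ)), IsCirc V → ∀ g : Matrix.GeneralLinearGroup (Fin 2) ℂ,
    IsCirc ((fun w : OnePoint ℂ => g • w) '' V)
  isCirc_s : ∀ (V : Set (OnePoint ℂ)), IsCirc V → ∀ i : Fin 4, IsCirc (s i '' V)
  circ_vec : ∀ (V : Set (OnePoint ℂ)), IsCirc V →
    ∃ v : HV, v.k * v.c < v.p ^ 2 + v.q ^ 2 ∧ V = {z | E v z = 0}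

/-- the nested discs shrink -/
def Shrink : Prop := ∀ (z : OnePoint ℂ) (U : Set (OnePoint ℂ)), U ∈ 𝓝 z →
    ∃ N : ℕ, ∀ w : List (Fin 4), IsRed w → N ≤ w.length → z ∈ DL w → DL w ⊆ U

/-- facts about `KK`, `fx`, `uu` -/
structure KF : Prop where
  fx_eq_zero : ∀ z : OnePoint ℂ, fx z = 0 ↔ z ∈ RL
  fx_uu : ∀ (t : ℝ) (z : OnePoint ℂ), z ≠ ((xi : ℂ) : OnePoint ℂ) → fx (uu t • z) = fx z + t
  uu_xi : ∀ t : ℝ, uu t • ((xi : ℂ) : OnePoint ℂ) = ((xi : ℂ) : OnePoint ℂ)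
  fx_gen : ∀ z : OnePoint ℂ, fx (gen none • z) = lam * fx z
  gen_xi : gen none • ((xi : ℂ) : OnePoint ℂ) = ((xi : ℂ) : OnePoint ℂ)
  uu_RL : ∀ t : ℝ, t ≠ 0 →
    (fun w : OnePoint ℂ => uu t • w) '' RL = insert ((xi : ℂ) : OnePoint ℂ) {z | fx z = t}
  gen_zpow_CC : ∀ n : ℤ, (fun w : OnePoint ℂ => (gen none ^ n) • w) '' CC =
      insert ((xi : ℂ) : OnePoint ℂ) {z | fx z = lam ^ n}
  gen_KK : ∀ (n : ℤ) (z : OnePoint ℂ), (gen none ^ n) • z ∈ KK ↔ z ∈ KK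
  lam_gt : 1 < lam
  closed_KK : IsClosed KK
  Tan_KK : ∀ z : OnePoint ℂ, z ∈ Tan → z ∈ KK → z ∈ RL
  uu_tendsto : Tendsto (fun n : ℕ => uu (lam ^ (-(n : ℤ)))) atTop (𝓝 1)

end Pool.Agent.TH605.AP
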